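import Pool.Agent.Helper60.SB.Defs4

/-!
Counting shapes (module L4).
-/

open Finset MeasureTheory
open scoped ENNReal Real

namespace Pool.Agent.Helper41.SB

open Pool.Agent.Helper60.SB

lemma mem_Shp {e m₀ m₁ : ℕ} {s : Fin (e + 1) → ℕ} :
    s ∈ Shp e m₀ m₁ ↔ m₀ ≤ ∑ j, s j ∧ ∑ j, s j ≤ m₁ := by
  unfold Shp
  rw [mem_filter, Fintype.mem_piFinset]
  constructor
  · exact fun h => h.2
  · intro h
    refine ⟨fun j => ?_, h⟩
    have := single_le_sum (f := s) (fun _ _ => Nat.zero_le _) (mem_univ j)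
    rw [mem_range]
    omega

lemma eq_of_init_sum {e : ℕ} {s s' : Fin (e + 1) → ℕ}
    (h : ∀ j : Fin e, s j.castSucc = s' j.castSucc) (hs : ∑ j, s j = ∑ j, s' j) : s = s' := by
  rw [Fin.sum_univ_castSucc, Fin.sum_univ_castSucc, sum_congr rfl (fun j _ => h j)] at hs
  funext j
  refine Fin.lastCases ?_ (fun i => h i) j
  omega

theorem card_level (e M q : ℕ) :
    ((Fintype.piFinset fun _ : Fin (e + 1) => range (M + 1)).filter
      fun l => ∑ j, l j = q).card ≤ (q + 1) ^ e := by
  have hc : (Fintype.piFinset fun _ : Fin e => range (q + 1)).card = (q + 1) ^ e := by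
    rw [Fintype.card_piFinset_const, card_range]
  rw [← hc]
  apply card_le_card_of_injOn (fun l (j : Fin e) => l j.castSucc)
  · intro l hl
    rw [mem_coe, mem_filter] at hl
    rw [mem_coe, Fintype.mem_piFinset]
    intro j
    have := single_le_sum (f := l) (fun _ _ => Nat.zero_le _) (mem_univ j.castSucc)
    rw [mem_range]
    show l j.castSucc < q + 1
    omega
  · intro l hl l' hl' h
    rw [mem_coe, mem_filter] at hl hl'
    exact eq_of_init_sum (fun j => congrFun h j) (by rw [hl.2, hl'.2])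

theorem card_Shp_upper (e m₀ m₁ : ℕ) :
    (Shp e m₀ m₁).card ≤ (m₁ - m₀ + 1) * (m₁ + 1) ^ e := by
  have hc : (range (m₁ - m₀ + 1) ×ˢ (Fintype.piFinset fun _ : Fin e => range (m₁ + 1))).card =
      (m₁ - m₀ + 1) * (m₁ + 1) ^ e := by
    rw [card_product, card_range, Fintype.card_piFinset_const, card_range]
  rw [← hc]
  apply card_le_card_of_injOn (fun l => ((∑ j, l j) - m₀, fun j : Fin e => l j.castSucc))
  · intro l hl
    rw [mem_coe, mem_Shp] at hl
    rw [mem_coe, mem_product, mem_range, Fintype.mem_piFinset]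
    refine ⟨by simp only; omega, fun j => ?_⟩
    have := single_le_sum (f := l) (fun _ _ => Nat.zero_le _) (mem_univ j.castSucc)
    rw [mem_range]
    simp only
    omega
  · intro l hl l' hl' h
    rw [mem_coe, mem_Shp] at hl hl'
    simp only [Prod.mk.injEq] at h
    exact eq_of_init_sum (fun j => congrFun h.2 j) (by omega)

theorem card_below (e m₀ m₁ : ℕ) (l : Fin (e + 1) → ℕ) (i : ℕ) (hl : ∑ j, l j = m₀ + i) :
    ((Shp e m₀ m₁).filter fun s => ∀ j, s j ≤ l j).card ≤
      min ((m₁ - m₀ + 1) * (i + 1) ^ e) ((i + 1) ^ (e + 1)) := by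
  have hsub : ∀ s : Fin (e + 1) → ℕ, (∀ j, s j ≤ l j) → ∑ j, (l j - s j) = m₀ + i - ∑ j, s j := by
    intro s hs
    rw [← hl, eq_tsub_iff_add_eq_of_le (sum_le_sum (fun j _ => hs j)), ← sum_add_distrib]
    exact sum_congr rfl (fun j _ => Nat.sub_add_cancel (hs j))
  have hle : ∀ s ∈ (Shp e m₀ m₁).filter fun s => ∀ j, s j ≤ l j, ∀ j, l j - s j ≤ i := by
    intro s hs j
    rw [mem_filter, mem_Shp] at hs
    have h1 := single_le_sum (f := fun j => l j - s j) (fun _ _ => Nat.zero_le _) (mem_univ j)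
    rw [hsub s hs.2] at h1
    omega
  apply le_min
  · have hc : (range (m₁ - m₀ + 1) ×ˢ (Fintype.piFinset fun _ : Fin e => range (i + 1))).card =
        (m₁ - m₀ + 1) * (i + 1) ^ e := by
      rw [card_product, card_range, Fintype.card_piFinset_const, card_range]
    rw [← hc]
    apply card_le_card_of_injOn
      (fun s => ((∑ j, s j) - m₀, fun j : Fin e => l j.castSucc - s j.castSucc))
    · intro s hs
      have h1 := hle s hs
      rw [mem_coe, mem_filter, mem_Shp] at hs
      rw [mem_coe, mem_product, mem_range, Fintype.mem_piFinset]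
      refine ⟨by simp only; omega, fun j => ?_⟩
      rw [mem_range]
      have := h1 j.castSucc
      show l j.castSucc - s j.castSucc < i + 1
      omega
    · intro s hs s' hs' h
      rw [mem_coe, mem_filter, mem_Shp] at hs hs'
      simp only [Prod.mk.injEq] at h
      refine eq_of_init_sum (fun j => ?_) (by omega)
      have h2 := congrFun h.2 j
      have h3 := hs.2 j.castSucc
      have h4 := hs'.2 j.castSucc
      omega
  · have hc : (Fintype.piFinset fun _ : Fin (e + 1) => range (i + 1)).card = (i + 1) ^ (e + 1) := by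
      rw [Fintype.card_piFinset_const, card_range]
    rw [← hc]
    apply card_le_card_of_injOn (fun s => fun j => l j - s j)
    · intro s hs
      have h1 := hle s hs
      rw [mem_coe, Fintype.mem_piFinset]
      intro j
      rw [mem_range]
      have := h1 j
      show l j - s j < i + 1
      omega
    · intro s hs s' hs' h
      rw [mem_coe, mem_filter, mem_Shp] at hs hs'
      funext j
      have h2 := congrFun h j
      simp only at h2
      have h3 := hs.2 j
      have h4 := hs'.2 j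
      omega

theorem card_below_zero (e m₀ m₁ : ℕ) (l : Fin (e + 1) → ℕ) (hl : ∑ j, l j < m₀) :
    ((Shp e m₀ m₁).filter fun s => ∀ j, s j ≤ l j) = ∅ := by
  rw [filter_eq_empty_iff]
  intro s hs hcon
  rw [mem_Shp] at hs
  have := sum_le_sum (fun j (_ : j ∈ (univ : Finset (Fin (e + 1)))) => hcon j)
  omega

theorem card_Shp_lower (e : ℕ) : ∃ c > 0, ∀ m₀ m₁ : ℕ, m₀ ≤ m₁ → m₁ ≤ 2 * m₀ →
    c * ((m₁ - m₀ + 1 : ℕ) : ℝ) * (m₁ : ℝ) ^ e ≤ (Shp e m₀ m₁).card := by
  refine ⟨(1 / (2 * (e + 1))) ^ e, by positivity, ?_⟩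
  intro m₀ m₁ h01 h12
  set k : ℕ := m₀ / (e + 1) with hk
  have hc : (range (m₁ - m₀ + 1) ×ˢ (Fintype.piFinset fun _ : Fin e => range (k + 1))).card =
      (m₁ - m₀ + 1) * (k + 1) ^ e := by
    rw [card_product, card_range, Fintype.card_piFinset_const, card_range]
  have hke : (e + 1) * k ≤ m₀ := Nat.mul_div_le m₀ (e + 1)
  have hsum : ∀ t ∈ (Fintype.piFinset fun _ : Fin e => range (k + 1)), ∑ j, t j ≤ m₀ := by
    intro t ht
    rw [Fintype.mem_piFinset] at ht
    have h1 : ∑ j, t j ≤ ∑ _j : Fin e, k := by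
      apply sum_le_sum
      intro j _
      have := ht j
      rw [mem_range] at this
      omega
    rw [sum_const, card_univ, Fintype.card_fin, smul_eq_mul] at h1
    have h2 : e * k ≤ (e + 1) * k := Nat.mul_le_mul_right k (Nat.le_succ e)
    omega
  have hcard : (m₁ - m₀ + 1) * (k + 1) ^ e ≤ (Shp e m₀ m₁).card := by
    rw [← hc]
    apply card_le_card_of_injOn
      (fun p => Fin.snoc (α := fun _ => ℕ) p.2 (m₀ + p.1 - ∑ j, p.2 j))
    · rintro ⟨q, t⟩ hp
      rw [mem_coe, mem_product, mem_range] at hp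
      have h1 := hsum t hp.2
      have h2 := hp.1
      rw [mem_coe, mem_Shp]
      have h3 : ∑ j, (Fin.snoc (α := fun _ => ℕ) t (m₀ + q - ∑ j, t j)) j = m₀ + q := by
        rw [Fin.sum_univ_castSucc]
        simp only [Fin.snoc_castSucc, Fin.snoc_last]
        omega
      simp only at h2 ⊢
      rw [h3]
      omega
    · rintro ⟨q, t⟩ hp ⟨q', t'⟩ hp' h
      rw [mem_coe, mem_product, mem_range] at hp hp'
      have h1 := hsum t hp.2
      have h1' := hsum t' hp'.2
      simp only at h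
      have ht : t = t' := by
        funext j
        have := congrFun h j.castSucc
        simpa only [Fin.snoc_castSucc] using this
      have hl := congrFun h (Fin.last e)
      simp only [Fin.snoc_last] at hl
      rw [ht] at hl h1
      refine Prod.ext ?_ ht
      simp only
      omega
  have hm : (m₁ : ℝ) ≤ 2 * (e + 1) * (k + 1) := by
    have h3 : m₀ < (e + 1) * (k + 1) := by
      rw [hk]
      have := Nat.lt_mul_div_succ m₀ (Nat.succ_pos e)
      simpa using this
    have h4 : m₁ ≤ 2 * ((e + 1) * (k + 1)) := by omega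
    have h5 : (m₁ : ℝ) ≤ 2 * (((e : ℝ) + 1) * ((k : ℝ) + 1)) := by exact_mod_cast h4
    linarith
  have h6 : (1 / (2 * ((e : ℝ) + 1))) ^ e * (m₁ : ℝ) ^ e ≤ ((k : ℝ) + 1) ^ e := by
    rw [← mul_pow]
    apply pow_le_pow_left₀ (by positivity)
    rw [one_div, inv_mul_le_iff₀ (by positivity)]
    linarith
  calc (1 / (2 * ((e : ℝ) + 1))) ^ e * ((m₁ - m₀ + 1 : ℕ) : ℝ) * (m₁ : ℝ) ^ e
      = ((m₁ - m₀ + 1 : ℕ) : ℝ) * ((1 / (2 * ((e : ℝ) + 1))) ^ e * (m₁ : ℝ) ^ e) := by ring
    _ ≤ ((m₁ - m₀ + 1 : ℕ) : ℝ) * ((k : ℝ) + 1) ^ e := by gcongr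
    _ = (((m₁ - m₀ + 1) * (k + 1) ^ e : ℕ) : ℝ) := by push_cast; ring
    _ ≤ (Shp e m₀ m₁).card := by exact_mod_cast hcard

end Pool.Agent.Helper41.SB
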