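import Pool.Agent.Helper41.SB.L4

/-!
Sums over the lattice points in the moment bounds (module L12).
-/

open Finset MeasureTheory
open scoped ENNReal Real

namespace Pool.Agent.Helper41.SB

open Pool.Agent.Helper60.SB

lemma geo_bound (e : ℕ) (r : ℝ) (h0 : 0 < r) (h1 : r < 1) :
    ∃ C > 0, ∀ n : ℕ, ∑ k ∈ range n, ((k : ℝ) + 1) ^ e * r ^ k ≤ C := by
  have hs : Summable fun n : ℕ => (n : ℝ) ^ e * r ^ n :=
    summable_pow_mul_geometric_of_norm_lt_one e (by rw [Real.norm_eq_abs, abs_of_pos h0]; exact h1)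
  have hs2 := (summable_nat_add_iff 1).2 hs
  have hs3 : Summable fun n : ℕ => ((n : ℝ) + 1) ^ e * r ^ n := by
    refine (hs2.mul_right r⁻¹).congr fun n => ?_
    push_cast
    rw [pow_succ]
    field_simp
  refine ⟨∑' n : ℕ, ((n : ℝ) + 1) ^ e * r ^ n + 1, ?_, fun n => ?_⟩
  · have : 0 ≤ ∑' n : ℕ, ((n : ℝ) + 1) ^ e * r ^ n := tsum_nonneg fun n => by positivity
    linarith
  · have := hs3.sum_le_tsum (range n) (fun i _ => by positivity)
    linarith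

lemma rpow_half (a : ℕ) : (2 : ℝ) ^ ((a : ℝ) / 2) = √2 ^ a := by
  rw [Real.sqrt_eq_rpow, ← Real.rpow_natCast, ← Real.rpow_mul (by norm_num)]
  congr 1
  ring

lemma prod_rpow_half {d : ℕ} (s : Fin d → ℕ) :
    ∏ j, (2 : ℝ) ^ ((s j : ℝ) / 2) = √2 ^ (∑ j, s j) := by
  rw [← prod_pow_eq_pow_sum]
  exact prod_congr rfl fun j _ => rpow_half _

lemma card_below_level (e m₀ m₁ : ℕ) (t : Fin (e + 1) → ℕ) (m : ℕ) :
    (((Shp e m₀ m₁).filter fun s => ∀ j, s j ≤ t j).filter fun s => ∑ j, s j = m).card ≤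
      (∑ j, t j - m + 1) ^ e := by
  refine le_trans ?_ (card_level e (∑ j, t j) (∑ j, t j - m))
  apply card_le_card_of_injOn (fun s => fun j => t j - s j)
  · intro s hs
    rw [mem_coe, mem_filter, mem_filter] at hs
    rw [mem_coe, mem_filter, Fintype.mem_piFinset]
    refine ⟨fun j => ?_, ?_⟩
    · rw [mem_range]
      have := single_le_sum (f := t) (fun _ _ => Nat.zero_le _) (mem_univ j)
      show t j - s j < ∑ j, t j + 1
      omega
    · rw [← hs.2, eq_tsub_iff_add_eq_of_le (sum_le_sum (fun j _ => hs.1.2 j)), ← sum_add_distrib]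
      exact sum_congr rfl (fun j _ => Nat.sub_add_cancel (hs.1.2 j))
  · intro s hs s' hs' h
    rw [mem_coe, mem_filter, mem_filter] at hs hs'
    funext j
    have h2 : t j - s j = t j - s' j := congrFun h j
    have h3 := hs.1.2 j
    have h4 := hs'.1.2 j
    omega

lemma inner_le (e : ℕ) : ∃ S > 0, ∀ (m₀ m₁ : ℕ) (t : Fin (e + 1) → ℕ),
    ∑ s ∈ (Shp e m₀ m₁).filter (fun s => ∀ j, s j ≤ t j), ∏ j, (2 : ℝ) ^ ((s j : ℝ) / 2) ≤
      S * √2 ^ (min (∑ j, t j) m₁) * (((∑ j, t j - m₁ : ℕ) : ℝ) + 1) ^ e := by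
  have h2 : (0 : ℝ) < √2 := by positivity
  have h21 : (1 : ℝ) < √2 := by
    rw [Real.lt_sqrt (by norm_num)]
    norm_num
  obtain ⟨S, hS, hb⟩ := geo_bound e (√2)⁻¹ (by positivity) (inv_lt_one_of_one_lt₀ h21)
  refine ⟨S, hS, fun m₀ m₁ t => ?_⟩
  set q : ℕ := ∑ j, t j with hq
  set M : ℕ := min q m₁ with hM
  set i : ℕ := q - m₁ with hi
  have hqi : q = M + i := by omega
  simp_rw [prod_rpow_half]
  have hmaps : ∀ s ∈ (Shp e m₀ m₁).filter (fun s => ∀ j, s j ≤ t j), ∑ j, s j ∈ range (M + 1) := by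
    intro s hs
    rw [mem_filter, mem_Shp] at hs
    have := sum_le_sum (fun j (_ : j ∈ (univ : Finset (Fin (e + 1)))) => hs.2 j)
    rw [mem_range]
    omega
  rw [← sum_fiberwise_of_maps_to hmaps]
  have h1 : ∀ m ∈ range (M + 1),
      ∑ s ∈ ((Shp e m₀ m₁).filter (fun s => ∀ j, s j ≤ t j)).filter (fun s => ∑ j, s j = m),
        √2 ^ (∑ j, s j) ≤ (((q - m : ℕ) : ℝ) + 1) ^ e * √2 ^ m := by
    intro m _
    have h3 : ∑ s ∈ ((Shp e m₀ m₁).filter (fun s => ∀ j, s j ≤ t j)).filter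
        (fun s => ∑ j, s j = m), √2 ^ (∑ j, s j) =
        ((((Shp e m₀ m₁).filter (fun s => ∀ j, s j ≤ t j)).filter
          (fun s => ∑ j, s j = m)).card : ℝ) * √2 ^ m := by
      rw [sum_congr rfl (g := fun _ => √2 ^ m), sum_const, nsmul_eq_mul]
      intro s hs
      rw [mem_filter] at hs
      rw [hs.2]
    rw [h3]
    have h4 : ((((Shp e m₀ m₁).filter (fun s => ∀ j, s j ≤ t j)).filter
          (fun s => ∑ j, s j = m)).card : ℝ) ≤ (((q - m : ℕ) : ℝ) + 1) ^ e := by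
      exact_mod_cast card_below_level e m₀ m₁ t m
    gcongr
  refine (sum_le_sum h1).trans ?_
  rw [← sum_range_reflect]
  have h5 : ∀ k ∈ range (M + 1),
      (((q - (M + 1 - 1 - k) : ℕ) : ℝ) + 1) ^ e * √2 ^ (M + 1 - 1 - k) ≤
        (√2 ^ M * ((i : ℝ) + 1) ^ e) * (((k : ℝ) + 1) ^ e * (√2)⁻¹ ^ k) := by
    intro k hk
    rw [mem_range] at hk
    have h6 : q - (M + 1 - 1 - k) = i + k := by omega
    have h7 : √2 ^ (M + 1 - 1 - k) = √2 ^ M * (√2)⁻¹ ^ k := by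
      have : M = (M + 1 - 1 - k) + k := by omega
      conv_rhs => rw [this]
      rw [pow_add, mul_assoc, inv_pow, mul_inv_cancel₀ (by positivity), mul_one]
    rw [h6, h7]
    have h8 : (((i + k : ℕ) : ℝ) + 1) ^ e ≤ ((i : ℝ) + 1) ^ e * ((k : ℝ) + 1) ^ e := by
      rw [← mul_pow]
      push_cast
      apply pow_le_pow_left₀ (by positivity)
      nlinarith [(Nat.cast_nonneg i : (0 : ℝ) ≤ i), (Nat.cast_nonneg k : (0 : ℝ) ≤ k)]
    calc (((i + k : ℕ) : ℝ) + 1) ^ e * (√2 ^ M * (√2)⁻¹ ^ k)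
        ≤ (((i : ℝ) + 1) ^ e * ((k : ℝ) + 1) ^ e) * (√2 ^ M * (√2)⁻¹ ^ k) := by gcongr
      _ = _ := by ring
  refine (sum_le_sum h5).trans ?_
  rw [← mul_sum]
  calc √2 ^ M * ((i : ℝ) + 1) ^ e * ∑ k ∈ range (M + 1), ((k : ℝ) + 1) ^ e * (√2)⁻¹ ^ k
      ≤ √2 ^ M * ((i : ℝ) + 1) ^ e * S := by
        have := hb (M + 1)
        gcongr
    _ = _ := by ring

lemma sum_t_gen (e b : ℕ) (hb : 1 ≤ b) : ∃ C > 0, ∀ m₀ m₁ : ℕ, m₀ ≤ m₁ →
    ∑ t ∈ Fintype.piFinset (fun _ : Fin (e + 1) => range (m₁ + 1)),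
      (∑ s ∈ (Shp e m₀ m₁).filter (fun s => ∀ j, s j ≤ t j), ∏ j, (2 : ℝ) ^ ((s j : ℝ) / 2)) ^
        (2 * b) / 2 ^ (∑ j, t j) ≤
      C * ((m₁ : ℝ) + 1) ^ e * ∑ q ∈ Icc m₀ m₁, (2 : ℝ) ^ ((b - 1) * q) := by
  obtain ⟨S, hS, hin⟩ := inner_le e
  obtain ⟨T, hT, hTb⟩ := geo_bound ((2 * b + 1) * e) (1 / 2) (by norm_num) (by norm_num)
  refine ⟨S ^ (2 * b) * (1 + T), by positivity, fun m₀ m₁ h01 => ?_⟩
  set A : (Fin (e + 1) → ℕ) → ℝ := fun t =>
    ∑ s ∈ (Shp e m₀ m₁).filter (fun s => ∀ j, s j ≤ t j), ∏ j, (2 : ℝ) ^ ((s j : ℝ) / 2) with hA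
  have hA0 : ∀ t, 0 ≤ A t := fun t => sum_nonneg fun s _ => prod_nonneg fun j _ => by positivity
  have hAz : ∀ t, ∑ j, t j < m₀ → A t = 0 := by
    intro t ht
    rw [hA]
    simp only
    rw [card_below_zero e m₀ m₁ t ht, sum_empty]
  -- the bound of one term
  set G : ℕ → ℝ := fun q => if q < m₀ then 0 else
    S ^ (2 * b) * (2 : ℝ) ^ ((b - 1) * min q m₁) * (((q - m₁ : ℕ) : ℝ) + 1) ^ (2 * b * e) *
      (1 / 2) ^ (q - m₁) with hG
  have hG0 : ∀ q, 0 ≤ G q := by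
    intro q
    rw [hG]
    simp only
    split_ifs
    · exact le_rfl
    · positivity
  have hAG : ∀ t, A t ^ (2 * b) / 2 ^ (∑ j, t j) ≤ G (∑ j, t j) := by
    intro t
    rw [hG]
    simp only
    split_ifs with h
    · rw [hAz t h, zero_pow (by omega), zero_div]
    · rw [div_le_iff₀ (by positivity)]
      set q := ∑ j, t j with hq
      have h1 := hin m₀ m₁ t
      rw [← hq] at h1
      have h2 : A t ^ (2 * b) ≤
          (S * √2 ^ (min q m₁) * (((q - m₁ : ℕ) : ℝ) + 1) ^ e) ^ (2 * b) :=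
        pow_le_pow_left₀ (hA0 t) h1 _
      refine h2.trans (le_of_eq ?_)
      rw [mul_pow, mul_pow, ← pow_mul, ← pow_mul]
      have h3 : √2 ^ (min q m₁ * (2 * b)) = (2 : ℝ) ^ (min q m₁ * b) := by
        rw [show min q m₁ * (2 * b) = 2 * (min q m₁ * b) by ring, pow_mul,
          Real.sq_sqrt (by norm_num)]
      rw [h3]
      have h4 : (2 : ℝ) ^ q = 2 ^ (min q m₁) * 2 ^ (q - m₁) := by
        rw [← pow_add]
        congr 1
        omega
      have h5 : (2 : ℝ) ^ (min q m₁ * b) = 2 ^ ((b - 1) * min q m₁) * 2 ^ (min q m₁) := by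
        rw [← pow_add]
        congr 1
        obtain ⟨c, rfl⟩ : ∃ c, b = c + 1 := ⟨b - 1, by omega⟩
        simp only [Nat.add_sub_cancel]
        ring
      have h6 : ((1 : ℝ) / 2) ^ (q - m₁) * 2 ^ (q - m₁) = 1 := by
        rw [← mul_pow]
        norm_num
      rw [h4, h5, show e * (2 * b) = 2 * b * e by ring]
      calc S ^ (2 * b) * ((2 : ℝ) ^ ((b - 1) * min q m₁) * 2 ^ (min q m₁)) *
            (((q - m₁ : ℕ) : ℝ) + 1) ^ (2 * b * e)
          = S ^ (2 * b) * ((2 : ℝ) ^ ((b - 1) * min q m₁) * 2 ^ (min q m₁)) *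
            (((q - m₁ : ℕ) : ℝ) + 1) ^ (2 * b * e) * (((1 : ℝ) / 2) ^ (q - m₁) * 2 ^ (q - m₁)) := by
            rw [h6, mul_one]
        _ = _ := by ring
  -- grouping by levels
  set Q : ℕ := (e + 1) * m₁ + 1 with hQ
  have hmaps : ∀ t ∈ Fintype.piFinset (fun _ : Fin (e + 1) => range (m₁ + 1)),
      ∑ j, t j ∈ range Q := by
    intro t ht
    rw [Fintype.mem_piFinset] at ht
    have h1 : ∑ j, t j ≤ ∑ _j : Fin (e + 1), m₁ := by
      apply sum_le_sum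
      intro j _
      have := ht j
      rw [mem_range] at this
      omega
    rw [sum_const, card_univ, Fintype.card_fin, smul_eq_mul] at h1
    rw [mem_range]
    omega
  have hstep1 : ∑ t ∈ Fintype.piFinset (fun _ : Fin (e + 1) => range (m₁ + 1)),
      A t ^ (2 * b) / 2 ^ (∑ j, t j) ≤ ∑ q ∈ range Q, ((q : ℝ) + 1) ^ e * G q := by
    refine (sum_le_sum fun t _ => hAG t).trans ?_
    rw [← sum_fiberwise_of_maps_to hmaps]
    refine sum_le_sum fun q _ => ?_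
    have h3 : ∑ t ∈ (Fintype.piFinset (fun _ : Fin (e + 1) => range (m₁ + 1))).filter
        (fun t => ∑ j, t j = q), G (∑ j, t j) =
        (((Fintype.piFinset (fun _ : Fin (e + 1) => range (m₁ + 1))).filter
          (fun t => ∑ j, t j = q)).card : ℝ) * G q := by
      rw [sum_congr rfl (g := fun _ => G q), sum_const, nsmul_eq_mul]
      intro s hs
      rw [mem_filter] at hs
      rw [hs.2]
    rw [h3]
    have h4 : (((Fintype.piFinset (fun _ : Fin (e + 1) => range (m₁ + 1))).filter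
          (fun t => ∑ j, t j = q)).card : ℝ) ≤ ((q : ℝ) + 1) ^ e := by
      exact_mod_cast card_level e m₁ q
    exact mul_le_mul_of_nonneg_right h4 (hG0 q)
  refine hstep1.trans ?_
  -- bound of one level
  have hlev : ∀ q : ℕ, ((q : ℝ) + 1) ^ e * G q ≤
      S ^ (2 * b) * ((m₁ : ℝ) + 1) ^ e * (if q < m₀ then 0 else (2 : ℝ) ^ ((b - 1) * min q m₁) *
        ((((q - m₁ : ℕ) : ℝ) + 1) ^ ((2 * b + 1) * e) * (1 / 2) ^ (q - m₁))) := by
    intro q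
    rw [hG]
    simp only
    split_ifs with h
    · simp
    · have h1 : ((q : ℝ) + 1) ^ e ≤ ((m₁ : ℝ) + 1) ^ e * (((q - m₁ : ℕ) : ℝ) + 1) ^ e := by
        rw [← mul_pow]
        apply pow_le_pow_left₀ (by positivity)
        have h2 : (q : ℝ) ≤ m₁ + ((q - m₁ : ℕ) : ℝ) := by
          exact_mod_cast (by omega : q ≤ m₁ + (q - m₁))
        nlinarith [(Nat.cast_nonneg m₁ : (0 : ℝ) ≤ m₁),
          (Nat.cast_nonneg (q - m₁) : (0 : ℝ) ≤ ((q - m₁ : ℕ) : ℝ))]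
      calc ((q : ℝ) + 1) ^ e * (S ^ (2 * b) * (2 : ℝ) ^ ((b - 1) * min q m₁) *
            (((q - m₁ : ℕ) : ℝ) + 1) ^ (2 * b * e) * (1 / 2) ^ (q - m₁))
          ≤ (((m₁ : ℝ) + 1) ^ e * (((q - m₁ : ℕ) : ℝ) + 1) ^ e) *
            (S ^ (2 * b) * (2 : ℝ) ^ ((b - 1) * min q m₁) *
            (((q - m₁ : ℕ) : ℝ) + 1) ^ (2 * b * e) * (1 / 2) ^ (q - m₁)) := by gcongr
        _ = _ := by
          rw [show (2 * b + 1) * e = 2 * b * e + e by ring, pow_add]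
          ring
  refine (sum_le_sum fun q _ => hlev q).trans ?_
  rw [← mul_sum]
  -- the two parts of the sum over the levels
  set W : ℕ → ℝ := fun q => if q < m₀ then 0 else (2 : ℝ) ^ ((b - 1) * min q m₁) *
        ((((q - m₁ : ℕ) : ℝ) + 1) ^ ((2 * b + 1) * e) * (1 / 2) ^ (q - m₁)) with hW
  have hW0 : ∀ q, 0 ≤ W q := by
    intro q
    rw [hW]
    simp only
    split_ifs
    · exact le_rfl
    · positivity
  have hWsum : ∑ q ∈ range Q, W q ≤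
      ∑ q ∈ Icc m₀ m₁, (2 : ℝ) ^ ((b - 1) * q) + 2 ^ ((b - 1) * m₁) * T := by
    have h1 : ∑ q ∈ range Q, W q ≤ ∑ q ∈ range (m₁ + Q), W q :=
      sum_le_sum_of_subset_of_nonneg (range_subset_range.2 (by omega)) fun q _ _ => hW0 q
    refine h1.trans ?_
    rw [sum_range_add]
    have h2 : ∑ q ∈ range m₁, W q ≤ ∑ q ∈ Icc m₀ m₁, (2 : ℝ) ^ ((b - 1) * q) := by
      have h3 : ∑ q ∈ range m₁, W q ≤ ∑ q ∈ (range m₁).filter (fun q => m₀ ≤ q),
          (2 : ℝ) ^ ((b - 1) * q) := by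
        rw [sum_filter]
        refine sum_le_sum fun q hq => ?_
        rw [mem_range] at hq
        rw [hW]
        simp only
        by_cases h : q < m₀
        · rw [if_pos h, if_neg (by omega)]
        · rw [if_neg h, if_pos (by omega), min_eq_left hq.le, Nat.sub_eq_zero_of_le hq.le]
          simp
      refine h3.trans (sum_le_sum_of_subset_of_nonneg ?_ fun q _ _ => by positivity)
      intro q hq
      rw [mem_filter, mem_range] at hq
      rw [mem_Icc]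
      omega
    have h4 : ∑ x ∈ range Q, W (m₁ + x) ≤ 2 ^ ((b - 1) * m₁) * T := by
      refine le_trans ?_ (mul_le_mul_of_nonneg_left (hTb Q) (by positivity))
      rw [mul_sum]
      refine sum_le_sum fun x _ => ?_
      rw [hW]
      simp only
      rw [if_neg (by omega), min_eq_right (by omega), Nat.add_sub_cancel_left]
    linarith
  have hlast : (2 : ℝ) ^ ((b - 1) * m₁) ≤ ∑ q ∈ Icc m₀ m₁, (2 : ℝ) ^ ((b - 1) * q) :=
    single_le_sum (f := fun q => (2 : ℝ) ^ ((b - 1) * q)) (fun q _ => by positivity)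
      (mem_Icc.2 ⟨h01, le_rfl⟩)
  calc S ^ (2 * b) * ((m₁ : ℝ) + 1) ^ e * ∑ q ∈ range Q, W q
      ≤ S ^ (2 * b) * ((m₁ : ℝ) + 1) ^ e *
        (∑ q ∈ Icc m₀ m₁, (2 : ℝ) ^ ((b - 1) * q) + 2 ^ ((b - 1) * m₁) * T) := by gcongr
    _ ≤ S ^ (2 * b) * ((m₁ : ℝ) + 1) ^ e *
        (∑ q ∈ Icc m₀ m₁, (2 : ℝ) ^ ((b - 1) * q) +
          (∑ q ∈ Icc m₀ m₁, (2 : ℝ) ^ ((b - 1) * q)) * T) := by gcongr
    _ = _ := by ring

theorem sum_t_two (e : ℕ) : ∃ C > 0, ∀ m₀ m₁ : ℕ, m₀ ≤ m₁ →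
    ∑ t ∈ Fintype.piFinset (fun _ : Fin (e + 1) => range (m₁ + 1)),
      (∑ s ∈ (Shp e m₀ m₁).filter (fun s => ∀ j, s j ≤ t j), ∏ j, (2 : ℝ) ^ ((s j : ℝ) / 2)) ^ 2 /
        2 ^ (∑ j, t j) ≤ C * ((m₁ - m₀ + 1 : ℕ) : ℝ) * ((m₁ : ℝ) + 1) ^ e := by
  obtain ⟨C, hC, h⟩ := sum_t_gen e 1 le_rfl
  refine ⟨C, hC, fun m₀ m₁ h01 => ?_⟩
  have h1 := h m₀ m₁ h01
  have h2 : ∑ q ∈ Icc m₀ m₁, (2 : ℝ) ^ ((1 - 1) * q) = ((m₁ - m₀ + 1 : ℕ) : ℝ) := by
    simp only [Nat.sub_self, Nat.zero_mul, pow_zero, sum_const, Nat.card_Icc, nsmul_eq_mul, mul_one]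
    congr 1
    omega
  rw [h2] at h1
  calc _ ≤ _ := h1
    _ = _ := by ring

theorem sum_t_pow (e b : ℕ) (hb : 2 ≤ b) : ∃ C > 0, ∀ m₀ m₁ : ℕ, m₀ ≤ m₁ →
    ∑ t ∈ Fintype.piFinset (fun _ : Fin (e + 1) => range (m₁ + 1)),
      (∑ s ∈ (Shp e m₀ m₁).filter (fun s => ∀ j, s j ≤ t j), ∏ j, (2 : ℝ) ^ ((s j : ℝ) / 2)) ^
        (2 * b) / 2 ^ (∑ j, t j) ≤ C * ((m₁ : ℝ) + 1) ^ e * (2 : ℝ) ^ ((b - 1) * m₁) := by
  obtain ⟨C, hC, h⟩ := sum_t_gen e b (by omega)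
  refine ⟨C * 2, by positivity, fun m₀ m₁ h01 => ?_⟩
  have h1 := h m₀ m₁ h01
  have h2 : ∑ q ∈ Icc m₀ m₁, (2 : ℝ) ^ ((b - 1) * q) ≤ 2 * (2 : ℝ) ^ ((b - 1) * m₁) := by
    have h3 : ∀ m : ℕ, ∑ q ∈ range (m + 1), (2 : ℝ) ^ ((b - 1) * q) ≤ 2 * (2 : ℝ) ^ ((b - 1) * m) := by
      intro m
      induction m with
      | zero => simp
      | succ m ih =>
        rw [sum_range_succ]
        have h4 : (2 : ℝ) * 2 ^ ((b - 1) * m) ≤ 2 ^ ((b - 1) * (m + 1)) := by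
          rw [mul_add, mul_one, pow_add, mul_comm (2 : ℝ)]
          have h5 : (2 : ℝ) ^ 1 ≤ 2 ^ (b - 1) := pow_le_pow_right₀ (by norm_num) (by omega)
          rw [pow_one] at h5
          gcongr
        linarith
    refine le_trans ?_ (h3 m₁)
    refine sum_le_sum_of_subset_of_nonneg ?_ fun q _ _ => by positivity
    intro q hq
    rw [mem_Icc] at hq
    rw [mem_range]
    omega
  calc _ ≤ _ := h1
    _ ≤ C * ((m₁ : ℝ) + 1) ^ e * (2 * (2 : ℝ) ^ ((b - 1) * m₁)) := by gcongr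
    _ = _ := by ring

end Pool.Agent.Helper41.SB
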