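import Pool.Agent.Helper60.SB.Defs4

/-!
From packings to entropy numbers (module L2).
-/

open Finset MeasureTheory
open scoped ENNReal Real

namespace Pool.Agent.Helper41.SB

open Pool.Agent.Helper60.SB

theorem tor1_ball_pos {x r : ℝ} (hr : 0 < r) (h : Metric.ball x r ⊆ Set.Ioo 0 (2 * π)) :
    0 < tor1 (Metric.ball x r) := by
  unfold tor1
  rw [Measure.smul_apply, smul_eq_mul, Measure.restrict_apply Metric.isOpen_ball.measurableSet,
    Set.inter_eq_left.2 (h.trans Set.Ioo_subset_Ico_self), Real.volume_ball]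
  refine ENNReal.mul_pos ?_ ?_
  · rw [Ne, ENNReal.inv_eq_zero]
    exact ENNReal.ofReal_ne_top
  · rw [Ne, ENNReal.ofReal_eq_zero, not_le]
    linarith

instance tor1_finite : IsFiniteMeasure tor1 := by
  unfold tor1
  refine Measure.smul_finite _ ?_
  rw [Ne, ENNReal.inv_eq_top, ENNReal.ofReal_eq_zero, not_le]
  exact Real.two_pi_pos

/-- nonempty open subsets of the open cube have positive measure -/
theorem tor_pos {d : ℕ} {U : Set (Fin d → ℝ)} (hU : IsOpen U)
    (hsub : ∀ x ∈ U, ∀ i, x i ∈ Set.Ioo 0 (2 * π)) {x₀ : Fin d → ℝ} (hx : x₀ ∈ U) :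
    0 < tor d U := by
  obtain ⟨r, hr, hb⟩ := Metric.isOpen_iff.1 hU x₀ hx
  have hbi : ∀ i, Metric.ball (x₀ i) r ⊆ Set.Ioo 0 (2 * π) := by
    intro i y hy
    have h1 : Function.update x₀ i y ∈ Metric.ball x₀ r := by
      rw [ball_pi _ hr, Set.mem_univ_pi]
      intro j
      by_cases hj : j = i
      · subst hj
        rw [Function.update_self]
        exact hy
      · rw [Function.update_of_ne hj]
        exact Metric.mem_ball_self hr
    have h2 := hsub _ (hb h1) i
    rwa [Function.update_self] at h2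
  refine lt_of_lt_of_le ?_ (measure_mono hb)
  rw [ball_pi _ hr]
  unfold tor
  rw [Measure.pi_pi]
  exact CanonicallyOrderedAdd.prod_pos.2 fun i _ => tor1_ball_pos hr (hbi i)

/-- an almost everywhere bound for a continuous function is a bound in the open cube -/
theorem bound_of_ae {d : ℕ} {𝕜 : Type} [RCLike 𝕜] (H : (Fin d → ℝ) → 𝕜) (hH : Continuous H)
    (b : ℝ) (h : ∀ᵐ x ∂(tor d), ‖H x‖ ≤ b) {x₀ : Fin d → ℝ}
    (hx : ∀ i, x₀ i ∈ Set.Ioo 0 (2 * π)) : ‖H x₀‖ ≤ b := by
  by_contra hcon
  rw [not_le] at hcon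
  set U : Set (Fin d → ℝ) := {x | b < ‖H x‖} ∩ Set.pi Set.univ (fun _ => Set.Ioo 0 (2 * π)) with hUd
  have hU : IsOpen U :=
    (isOpen_lt continuous_const hH.norm).inter
      (isOpen_set_pi Set.finite_univ fun _ _ => isOpen_Ioo)
  have hpos : 0 < tor d U := by
    refine tor_pos hU ?_ (x₀ := x₀) ⟨hcon, fun i _ => hx i⟩
    intro x hx' i
    exact hx'.2 i (Set.mem_univ i)
  have hzero : tor d U = 0 := by
    refine measure_mono_null ?_ (ae_iff.1 h)
    intro x hx' hbad
    exact absurd hbad (not_le.2 hx'.1)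
  exact hpos.ne' hzero

/-- reduction of the coordinates in a set to `[0, 2π)` -/
theorem per_reduce {d : ℕ} {α : Type*} (H : (Fin d → ℝ) → α)
    (hper : ∀ x j, H (Function.update x j (x j + 2 * π)) = H x) (x : Fin d → ℝ)
    (s : Finset (Fin d)) :
    H (fun j => if j ∈ s then 2 * π * Int.fract (x j / (2 * π)) else x j) = H x := by
  induction s using Finset.induction_on with
  | empty => simp
  | insert i s hi ih =>
    rw [← ih]
    set z : Fin d → ℝ := fun j => if j ∈ s then 2 * π * Int.fract (x j / (2 * π)) else x j with hz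
    have hzi : z i = x i := by rw [hz]; simp only [if_neg hi]
    have hp : Function.Periodic (fun t => H (Function.update z i t)) (2 * π) := by
      intro t
      have := hper (Function.update z i t) i
      rw [Function.update_self, Function.update_idem] at this
      exact this
    have h1 : (fun j => if j ∈ insert i s then 2 * π * Int.fract (x j / (2 * π)) else x j) =
        Function.update z i (x i - (⌊x i / (2 * π)⌋ : ℤ) * (2 * π)) := by
      funext j
      by_cases hj : j = i
      · subst hj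
        rw [Function.update_self, if_pos (mem_insert_self _ _), Int.fract]
        have := Real.two_pi_pos
        field_simp
      · rw [Function.update_of_ne hj, hz]
        simp only [mem_insert, hj, false_or]
    rw [h1]
    have h2 := hp.sub_int_mul_eq (x := x i) ⌊x i / (2 * π)⌋
    rw [h2, ← hzi, Function.update_eq_self]

/-- an almost everywhere bound for a continuous periodic function is a bound everywhere -/
theorem bound_all {d : ℕ} {𝕜 : Type} [RCLike 𝕜] (H : (Fin d → ℝ) → 𝕜) (hH : Continuous H)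
    (hper : ∀ x j, H (Function.update x j (x j + 2 * π)) = H x)
    (b : ℝ) (h : ∀ᵐ x ∂(tor d), ‖H x‖ ≤ b) (x : Fin d → ℝ) : ‖H x‖ ≤ b := by
  rw [← per_reduce H hper x univ]
  simp only [mem_univ, if_true]
  have hcl : IsClosed {y | ‖H y‖ ≤ b} := isClosed_le hH.norm continuous_const
  have hsub : Set.pi Set.univ (fun _ : Fin d => Set.Ioo 0 (2 * π)) ⊆ {y | ‖H y‖ ≤ b} := by
    intro y hy
    exact bound_of_ae H hH b h fun i => hy i (Set.mem_univ i)
  have hsub2 := hcl.closure_subset_iff.2 hsub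
  rw [closure_pi_set] at hsub2
  apply hsub2
  intro i _
  rw [closure_Ioo Real.two_pi_pos.ne]
  have h1 := Int.fract_nonneg (x i / (2 * π))
  have h2 := (Int.fract_lt_one (x i / (2 * π))).le
  have h3 := Real.two_pi_pos
  constructor
  · positivity
  · simp only
    nlinarith

theorem entropy_of_packing {d : ℕ} {𝕜 : Type} [RCLike 𝕜] {Ω : Type} [MeasurableSpace Ω]
    (P : Measure Ω) [IsProbabilityMeasure P] (fX : Ω → (Fin d → ℝ) → 𝕜)
    (hcont : ∀ X, Continuous (fX X))
    (hper : ∀ X x j, fX X (Function.update x j (x j + 2 * π)) = fX X x)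
    (F : Set ((Fin d → ℝ) → 𝕜)) (G : Set Ω) (hG : 1 / 2 ≤ P.real G) (hF : ∀ X ∈ G, fX X ∈ F)
    (ε q : ℝ) (hε : 0 < ε)
    (hpack : ∀ Y ∈ G, P.real {X | X ∈ G ∧ ∀ x, ‖fX X x - fX Y x‖ ≤ 2 * ε} ≤ q)
    (n : ℕ) (hn : 2 ^ n * q < 1 / 2) : ENNReal.ofReal ε ≤ entropyNumber n F := by
  by_contra hcon
  rw [not_le] at hcon
  unfold entropyNumber at hcon
  rw [sInf_lt_iff] at hcon
  obtain ⟨ε', ⟨-, y, -, hcov⟩, hlt⟩ := hcon
  have hfin : ε' ≠ ⊤ := (hlt.trans ENNReal.ofReal_lt_top).ne
  have hε' : ε'.toReal ≤ ε := by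
    have := ENNReal.toReal_mono ENNReal.ofReal_ne_top hlt.le
    rwa [ENNReal.toReal_ofReal hε.le] at this
  have hGne : G.Nonempty := by
    rw [Set.nonempty_iff_ne_empty]
    intro h0
    rw [h0, measureReal_empty] at hG
    norm_num at hG
  have hq : 0 ≤ q := by
    obtain ⟨Y, hY⟩ := hGne
    exact measureReal_nonneg.trans (hpack Y hY)
  have hpart : ∀ j : Fin (2 ^ n),
      P.real {X | X ∈ G ∧ eLpNorm (fX X - y j) ⊤ (tor d) ≤ ε'} ≤ q := by
    intro j
    rcases Set.eq_empty_or_nonempty {X | X ∈ G ∧ eLpNorm (fX X - y j) ⊤ (tor d) ≤ ε'} with h0 | h0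
    · rw [h0, measureReal_empty]
      exact hq
    · obtain ⟨Y, hYG, hY⟩ := h0
      refine (measureReal_mono ?_ (measure_ne_top _ _)).trans (hpack Y hYG)
      rintro X ⟨hXG, hX⟩
      refine ⟨hXG, fun x => ?_⟩
      refine bound_all (fun x => fX X x - fX Y x) ((hcont X).sub (hcont Y)) ?_ (2 * ε) ?_ x
      · intro x j
        simp only [hper]
      · rw [eLpNorm_exponent_top] at hX hY
        filter_upwards [enorm_ae_le_eLpNormEssSup (fX X - y j) (tor d),
          enorm_ae_le_eLpNormEssSup (fX Y - y j) (tor d)] with z hz1 hz2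
        have h1 : ‖fX X z - y j z‖ ≤ ε'.toReal := by
          have := ENNReal.toReal_mono hfin (hz1.trans hX)
          simpa using this
        have h2 : ‖fX Y z - y j z‖ ≤ ε'.toReal := by
          have := ENNReal.toReal_mono hfin (hz2.trans hY)
          simpa using this
        have h3 : fX X z - fX Y z = (fX X z - y j z) - (fX Y z - y j z) := by ring
        rw [h3]
        refine (norm_sub_le _ _).trans ?_
        linarith
  have hsub : G ⊆ ⋃ j : Fin (2 ^ n), {X | X ∈ G ∧ eLpNorm (fX X - y j) ⊤ (tor d) ≤ ε'} := by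
    intro X hX
    obtain ⟨j, hj⟩ := hcov _ (hF X hX)
    exact Set.mem_iUnion.2 ⟨j, hX, hj⟩
  have hle : P.real G ≤ 2 ^ n * q := by
    refine (measureReal_mono hsub (measure_ne_top _ _)).trans ?_
    refine (measureReal_iUnion_fintype_le _).trans ?_
    refine (Finset.sum_le_sum fun j _ => hpart j).trans ?_
    rw [sum_const, card_univ, Fintype.card_fin, nsmul_eq_mul]
    push_cast
    exact le_rfl
  linarith

end Pool.Agent.Helper41.SB
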